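import Mathlib
import Pool.Agent.H99.ViscDefs

set_option autoImplicit false

namespace Pool.Agent.Results.MP_12cf7c_an.Counter

open Filter Topology Real Pool.Agent.H99.Visc

variable {n : ℕ}

/-- the Hamiltonian -/
noncomputable def HH (_ p : E n) : ℝ := ‖p‖ ^ 4 - ‖p‖ ^ 2

lemma per_max {u : E n → ℝ} (hc : Continuous u) (hp : Per u) : ∃ y, ∀ z, u z ≤ u y := by
  obtain ⟨y, -, hy⟩ := (isCompact_closedBall (0 : E n) (n + 1)).exists_isMaxOn
    ⟨0, Metric.mem_closedBall_self (by positivity)⟩ hc.continuousOn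
  refine ⟨y, fun z => ?_⟩
  rw [← hp (fun i => -⌊z i⌋) z]
  apply hy
  rw [mem_closedBall_zero_iff, EuclideanSpace.norm_eq, sqrt_le_left (by positivity)]
  refine (Finset.sum_le_card_nsmul _ _ 1 fun i _ => ?_).trans ?_
  · have h1 := Int.floor_le (z i)
    have h2 := Int.lt_floor_add_one (z i)
    simp only [PiLp.add_apply, Int.cast_neg, norm_eq_abs, sq_abs]
    nlinarith
  · simp only [Finset.card_univ, Fintype.card_fin, nsmul_eq_mul, mul_one]
    nlinarith [Nat.cast_nonneg (α := ℝ) n]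

lemma lip {u : E n → ℝ} (hu : IsSub HH 0 u) (x y : E n) : u y - u x ≤ 2 * ‖y - x‖ := by
  obtain ⟨hc, hp, h⟩ := hu
  obtain ⟨m, hm⟩ := per_max hc hp
  have key : ∀ ε : ℝ, 0 < ε → ∃ z, ‖z - x‖ ≤ ε ∧ u y - 2 * √(‖y - x‖ ^ 2 + ε ^ 2) ≤ u z := by
    intro ε hε
    let φ : E n → ℝ := fun z => 2 * √(‖z - x‖ ^ 2 + ε ^ 2)
    have h0 : ∀ z : E n, ‖z - x‖ ^ 2 + ε ^ 2 ≠ 0 := fun z => by positivity
    have hφ : ContDiff ℝ 1 φ := contDiff_const.mul
      ((((contDiff_id.sub contDiff_const).norm_sq ℝ).add contDiff_const).sqrt h0)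
    obtain ⟨z, hz⟩ := (hc.sub hφ.continuous).exists_forall_ge' x (by
      have : Tendsto (fun z : E n => ‖z‖) (cocompact _) atTop := tendsto_norm_cocompact_atTop
      filter_upwards [this.eventually_ge_atTop (‖x‖ + ε + (u m - u x))] with z hz
      have h1 : ‖z‖ - ‖x‖ ≤ √(‖z - x‖ ^ 2 + ε ^ 2) :=
        (norm_sub_norm_le z x).trans (le_sqrt_of_sq_le (by nlinarith))
      have h2 := hm z
      have h3 := hm x
      simp only [Pi.sub_apply, φ, sub_self, norm_zero, ne_eq, OfNat.ofNat_ne_zero,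
        not_false_eq_true, zero_pow, zero_add, sqrt_sq hε.le]
      linarith)
    have h1 := h φ hφ z (Eventually.of_forall hz)
    have h2 : HasGradientAt φ ((2 / √(‖z - x‖ ^ 2 + ε ^ 2)) • (z - x)) z := by
      rw [hasGradientAt_iff_hasFDerivAt]
      refine HasFDerivAt.congr_fderiv
        ((((((hasFDerivAt_id z).sub_const x).norm_sq).add_const (ε ^ 2)).sqrt (h0 z)).const_mul 2) ?_
      ext v
      simp
      field_simp
    rw [h2.gradient, HH, norm_smul, norm_eq_abs, abs_of_nonneg (by positivity)] at h1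
    have h3 : 0 < √(‖z - x‖ ^ 2 + ε ^ 2) := by positivity
    have h4 : (2 / √(‖z - x‖ ^ 2 + ε ^ 2) * ‖z - x‖) ^ 2 ≤ 1 := by
      by_contra h5
      nlinarith [not_le.1 h5]
    rw [mul_pow, div_pow, sq_sqrt (by positivity), div_mul_eq_mul_div,
      div_le_one (by positivity)] at h4
    refine ⟨z, abs_le_of_sq_le_sq' (by nlinarith [sq_nonneg ‖z - x‖]) hε.le |>.2, ?_⟩
    have h5 := hz y
    have h6 : 0 ≤ φ z := by positivity
    simp only [Pi.sub_apply] at h5
    linarith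
  choose! z hz1 hz2 using key
  have t0 : Tendsto (fun ε : ℝ => ε) (𝓝[>] 0) (𝓝 0) := tendsto_id.mono_left nhdsWithin_le_nhds
  have t1 : Tendsto z (𝓝[>] 0) (𝓝 x) := by
    rw [tendsto_iff_norm_sub_tendsto_zero]
    exact squeeze_zero' (Eventually.of_forall fun _ => norm_nonneg _)
      (eventually_mem_nhdsWithin.mono hz1) t0
  have t2 : Tendsto (fun ε : ℝ => u y - 2 * √(‖y - x‖ ^ 2 + ε ^ 2)) (𝓝[>] 0)
      (𝓝 (u y - 2 * √(‖y - x‖ ^ 2 + 0 ^ 2))) :=
    (((t0.pow 2).const_add _).sqrt.const_mul 2).const_sub _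
  have := le_of_tendsto_of_tendsto t2 ((hc.tendsto x).comp t1) (eventually_mem_nhdsWithin.mono hz2)
  simp only [ne_eq, OfNat.ofNat_ne_zero, not_false_eq_true, zero_pow, add_zero,
    sqrt_sq (norm_nonneg _)] at this
  linarith

/-- smooth subsolution -/
noncomputable def w (x : E (n + 1)) (y : E (n + 1)) : ℝ := sin (2 * π * (y 0 - x 0)) / (4 * π)

lemma w_smooth (x : E (n + 1)) : ContDiff ℝ 1 (w x) := by
  unfold w
  fun_prop

lemma w_grad (x y : E (n + 1)) :
    HasGradientAt (w x) ((cos (2 * π * (y 0 - x 0)) / 2) • EuclideanSpace.single 0 1) y := by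
  rw [hasGradientAt_iff_hasFDerivAt]
  have h := (EuclideanSpace.proj (𝕜 := ℝ) (0 : Fin (n + 1))).hasFDerivAt (x := y)
  refine HasFDerivAt.congr_fderiv ((((h.sub_const (x 0)).const_mul (2 * π)).sin).mul_const
    (4 * π)⁻¹) ?_
  ext v
  simp [EuclideanSpace.inner_single_left]
  field_simp
  ring

lemma w_sub (x : E (n + 1)) : IsSub HH 0 (w x) := by
  refine ⟨(w_smooth x).continuous, fun k y => ?_, fun φ hφ y h => ?_⟩
  · simp only [w, PiLp.add_apply]
    rw [show 2 * π * (y 0 + k 0 - x 0) = 2 * π * (y 0 - x 0) + k 0 * (2 * π) by ring,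
      sin_add_int_mul_two_pi]
  · have h1 := (hφ.differentiable one_ne_zero y).hasGradientAt
    have h2 := w_grad x y
    rw [hasGradientAt_iff_hasFDerivAt] at h1 h2
    have h3 := h.hasFDerivAt_eq_zero (h2.sub h1)
    rw [sub_eq_zero] at h3
    rw [← (InnerProductSpace.toDual ℝ _).injective h3, HH, norm_smul]
    have h4 := cos_sq_le_one (2 * π * (y 0 - x 0))
    simp only [norm_eq_abs, PiLp.norm_single, norm_one, mul_one,
      show ∀ a : ℝ, |a| ^ 4 = (a ^ 2) ^ 2 from fun a => by rw [← sq_abs a]; ring, sq_abs]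
    nlinarith [sq_nonneg (cos (2 * π * (y 0 - x 0)))]

/-- In every dimension n ≥ 1 there is a continuous periodic superlinear Hamiltonian with critical
value c0 for which the suprema defining S_x are finite and no S_x is a viscosity supersolution,
hence none is a viscosity solution. -/
theorem result (n : ℕ) : ∃ (H : E (n + 1) → E (n + 1) → ℝ) (c0 : ℝ),
    Continuous (fun q : E (n + 1) × E (n + 1) => H q.1 q.2) ∧ Per H ∧
    (∀ M : ℝ, ∃ R : ℝ, ∀ x p, R ≤ ‖p‖ → M ≤ H x p / ‖p‖) ∧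
    IsLeast {c | ∃ u, IsSub H c u} c0 ∧
    (∀ x y, BddAbove {r | ∃ u, IsSub H c0 u ∧ r = u y - u x}) ∧
    ∀ x, ¬ IsSuper H c0 (S H c0 x) := by
  have hb : ∀ x y : E (n + 1), BddAbove {r | ∃ u, IsSub HH 0 u ∧ r = u y - u x} := by
    intro x y
    refine ⟨2 * ‖y - x‖, ?_⟩
    rintro _ ⟨u, hu, rfl⟩
    exact lip hu x y
  refine ⟨HH, 0, by unfold HH; fun_prop, fun _ _ => rfl, fun M => ⟨|M| + 2, fun x p hp => ?_⟩,
    ⟨⟨_, w_sub 0⟩, ?_⟩, hb, fun x h => ?_⟩
  · have h1 := le_abs_self M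
    have h2 := abs_nonneg M
    rw [le_div_iff₀ (by linarith), HH]
    have h3 : M ≤ ‖p‖ ^ 3 - ‖p‖ := by nlinarith [mul_nonneg (norm_nonneg p) (norm_nonneg p)]
    nlinarith [mul_le_mul_of_nonneg_right h3 (norm_nonneg p)]
  · rintro c ⟨u, hc, hp, h⟩
    obtain ⟨y, hy⟩ := per_max hc hp
    simpa [HH] using h (fun _ => 0) contDiff_const y (Eventually.of_forall (by simpa using hy))
  · have h1 : S HH 0 x x = 0 := by
      refine le_antisymm (csSup_le ⟨_, _, w_sub x, rfl⟩ ?_) (le_csSup (hb x x) ⟨_, w_sub x, by simp⟩)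
      rintro _ ⟨u, -, rfl⟩
      simp
    have h2 := h.2.2 (w x) (w_smooth x) x (Eventually.of_forall fun y => by
      have := le_csSup (hb x y) ⟨_, w_sub x, rfl⟩
      change _ ≤ S HH 0 x y at this
      simp only [h1]
      linarith)
    rw [(w_grad x x).gradient, HH, norm_smul] at h2
    norm_num at h2

end Pool.Agent.Results.MP_12cf7c_an.Counter
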